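import Mathlib
import Pool.Agent.H362R2.RQ.PrimeAP

/-!
# Coprime multipliers `m` with `m n ∣ C(m + n)`

For every positive integer `n` there is a positive integer `m` coprime to `n` such that `m n` divides
the Catalan number `C(m + n)`.

Proof. `m = p q` with two large primes `3q/2 < p < 2q` such that `p q ≡ -(2n + 1)` modulo `n^(n + 2)`.
With `N = m + n` there is a carry in the second lowest digit when `N` is added to itself in base `p`
and in base `q`, and `p, q ∤ N + 1`; so `p q ∣ C(N)`. If `ℓ^e` exactly divides `n`, then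
`N ≡ -(n + 1)` modulo `ℓ^(e(n + 2))`, so there are at least `e(n + 2) - n` carries in base `ℓ`, and
`ℓ^(e + 1) ∤ N + 1`; so `ℓ^e ∣ C(N)`. The primes exist by the prime number theorem for arithmetic
progressions.
-/

set_option autoImplicit false

namespace Pool.Agent.Results.MP_558b4e_nt.EveryInteger

open Finset

/-- carries -/
theorem carries {p N : ℕ} (hp : p.Prime) (S : Finset ℕ)
    (hS : ∀ i ∈ S, 1 ≤ i ∧ p ^ i ≤ 2 * (N % p ^ i)) :
    S.card ≤ (Nat.centralBinom N).factorization p := by
  have h1 : Nat.centralBinom N = (N + N).choose N := by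
    rw [Nat.centralBinom, two_mul]
  rw [h1, Nat.factorization_choose' hp (Nat.lt_succ_self _)]
  refine Finset.card_le_card fun i hi => ?_
  obtain ⟨h2, h3⟩ := hS i hi
  rw [Finset.mem_filter, Finset.mem_Ico]
  refine ⟨⟨h2, ?_⟩, by omega⟩
  have h4 : N % p ^ i ≤ N := Nat.mod_le _ _
  have h5 : p ^ i ≤ N + N := by omega
  have h6 : N + N ≠ 0 := by
    have : 0 < p ^ i := pow_pos hp.pos i
    omega
  exact Nat.lt_succ_of_le (Nat.le_log_of_pow_le hp.one_lt h5)

theorem fact_catalan (p N : ℕ) :
    (N + 1).factorization p + (catalan N).factorization p =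
      (Nat.centralBinom N).factorization p := by
  have h1 := succ_mul_catalan_eq_centralBinom N
  have h2 : catalan N ≠ 0 := by
    intro h
    rw [h, mul_zero] at h1
    exact (Nat.centralBinom_pos N).ne h1
  rw [← h1, Nat.factorization_mul (Nat.succ_ne_zero N) h2]
  rfl

theorem catalan_ne (N : ℕ) : catalan N ≠ 0 := by
  intro h
  have h1 := succ_mul_catalan_eq_centralBinom N
  rw [h, mul_zero] at h1
  exact (Nat.centralBinom_pos N).ne h1

/-- a prime with a carry not dividing `N + 1` divides the Catalan number -/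
theorem prime_dvd {p N i : ℕ} (hp : p.Prime) (hi : 1 ≤ i) (h : p ^ i ≤ 2 * (N % p ^ i))
    (hN : ¬ p ∣ N + 1) : p ∣ catalan N := by
  have h1 := carries hp {i} (fun j hj => by
    rw [Finset.mem_singleton] at hj
    subst hj
    exact ⟨hi, h⟩)
  rw [Finset.card_singleton] at h1
  have h2 := fact_catalan p N
  rw [Nat.factorization_eq_zero_of_not_dvd hN, zero_add] at h2
  rw [← h2] at h1
  exact (hp.dvd_iff_one_le_factorization (catalan_ne N)).2 h1

theorem n_dvd {n N : ℕ} (hn : 0 < n) (hN : n ^ (n + 2) ∣ N + (n + 1)) : n ∣ catalan N := by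
  rw [← Nat.factorization_le_iff_dvd hn.ne' (catalan_ne N)]
  intro l
  by_cases hl : l.Prime
  swap
  · rw [Nat.factorization_eq_zero_of_not_prime n hl]
    exact Nat.zero_le _
  set e := n.factorization l with he
  rcases Nat.eq_zero_or_pos e with h0 | hepos
  · rw [h0]
    exact Nat.zero_le _
  have hle : l ^ (e * (n + 2)) ∣ N + (n + 1) := by
    have h1 : l ^ e ∣ n := Nat.ordProj_dvd n l
    have h2 : (l ^ e) ^ (n + 2) ∣ n ^ (n + 2) := pow_dvd_pow_of_dvd h1 _
    rw [← pow_mul] at h2
    exact h2.trans hN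
  have hcar := carries (N := N) hl (Finset.Icc (n + 1) (e * (n + 2))) (fun i hi => by
    rw [Finset.mem_Icc] at hi
    refine ⟨by omega, ?_⟩
    have h1 : l ^ i ∣ N + (n + 1) := (pow_dvd_pow l hi.2).trans hle
    have h2 : 2 * (n + 1) ≤ l ^ i := by
      calc 2 * (n + 1) ≤ 2 * 2 ^ n := by
            have := Nat.lt_two_pow_self (n := n)
            omega
        _ = 2 ^ (n + 1) := by rw [pow_succ]; ring
        _ ≤ 2 ^ i := Nat.pow_le_pow_right (by norm_num) hi.1
        _ ≤ l ^ i := Nat.pow_le_pow_left hl.two_le i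
    -- the residue
    have h3 : N % l ^ i = l ^ i - (n + 1) := by
      have h4 : (N + (n + 1)) % l ^ i = 0 := Nat.mod_eq_zero_of_dvd h1
      have h5 : N % l ^ i < l ^ i := Nat.mod_lt _ (pow_pos hl.pos i)
      have h6 : (N % l ^ i + (n + 1)) % l ^ i = 0 := by rw [Nat.mod_add_mod]; exact h4
      have h7 : l ^ i ∣ N % l ^ i + (n + 1) := Nat.dvd_of_mod_eq_zero h6
      obtain ⟨k, hk⟩ := h7
      generalize N % l ^ i = x at hk h5 ⊢
      have hk1 : k = 1 := by
        have h8 : 0 < k := by
          rcases Nat.eq_zero_or_pos k with h | h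
          · rw [h, mul_zero] at hk; omega
          · exact h
        have h9 : k < 2 := by
          by_contra h10
          push Not at h10
          have : l ^ i * 2 ≤ l ^ i * k := Nat.mul_le_mul_left _ h10
          omega
        omega
      rw [hk1, mul_one] at hk
      omega
    rw [h3]
    omega)
  rw [Nat.card_Icc] at hcar
  have h2 := fact_catalan l N
  have h3 : (N + 1).factorization l ≤ e := by
    by_contra h
    push Not at h
    have h4 : l ^ (e + 1) ∣ N + 1 :=
      (pow_dvd_pow l h).trans (Nat.ordProj_dvd (N + 1) l)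
    have h5 : l ^ (e + 1) ∣ N + (n + 1) := by
      refine (pow_dvd_pow l ?_).trans hle
      nlinarith
    have h6 : l ^ (e + 1) ∣ n := by
      have h7 : N + (n + 1) = (N + 1) + n := by ring
      rw [h7] at h5
      exact (Nat.dvd_add_right h4).1 h5
    have h8 := (hl.pow_dvd_iff_le_factorization hn.ne').1 h6
    omega
  have h4 : e * (n + 2) + 1 - (n + 1) ≤ (Nat.centralBinom N).factorization l := hcar
  have h5 : n ≤ e * n := Nat.le_mul_of_pos_left n hepos
  have h6 : e * (n + 2) = e * n + 2 * e := by ring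
  show e ≤ (catalan N).factorization l
  omega

/-- **For every positive integer `n` there is a positive integer `m` coprime to `n` such that `m n`
divides the Catalan number `C(m + n)`.** -/
theorem result (n : ℕ) (hn : 0 < n) :
    ∃ m : ℕ, 0 < m ∧ Nat.gcd m n = 1 ∧
      m * n ∣ (2 * (m + n)).choose (m + n) / (m + n + 1) := by
  have hcat : ∀ k : ℕ, (2 * k).choose k / (k + 1) = catalan k := fun k => by
    rw [catalan_eq_centralBinom_div, Nat.centralBinom_eq_two_mul_choose]
  simp only [hcat]
  set M := n ^ (n + 2) with hM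
  have hM0 : 0 < M := by positivity
  have hcop1 : Nat.Coprime (2 * n + 1) n := by
    have : Nat.Coprime (1 + n * 2) n := by simp
    rwa [show 1 + n * 2 = 2 * n + 1 by ring] at this
  have hcopM : Nat.Coprime (2 * n + 1) M := Nat.Coprime.pow_right _ hcop1
  set b := (M - 1) * (2 * n + 1) with hb
  have hbM : b + (2 * n + 1) = M * (2 * n + 1) := by
    rw [hb, ← Nat.succ_mul, Nat.succ_eq_add_one, Nat.sub_add_cancel hM0]
  have hcopb : Nat.Coprime b M := by
    have h1 : Nat.Coprime (M - 1) M := by
      have h2 : M - 1 + 1 = M := Nat.sub_add_cancel hM0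
      have h3 : Nat.Coprime (M - 1) (M - 1 + 1) := by simp
      rwa [h2] at h3
    exact Nat.Coprime.mul_left h1 hcopM
  -- the primes
  have hev := Pool.Agent.H362R2.RQ.exists_prime_mod M hM0 b hcopb (1 / 4) (by norm_num)
  obtain ⟨Y, hY⟩ := Filter.eventually_atTop.1 hev
  obtain ⟨q, hq, hqgt, hqM⟩ := Nat.exists_prime_gt_modEq_one (k := M) (⌈|Y|⌉₊ + 2 * n + 4) hM0.ne'
  have hqY : |Y| ≤ (q : ℝ) := by
    have h1 : (⌈|Y|⌉₊ : ℝ) ≤ q := by
      have : ⌈|Y|⌉₊ ≤ q := by omega
      exact_mod_cast this
    exact (Nat.le_ceil _).trans h1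
  have hq0 : (0 : ℝ) ≤ q := Nat.cast_nonneg q
  obtain ⟨p, hp, hpM, hp1, hp2⟩ := hY (3 / 2 * q) (by
    have := le_abs_self Y
    linarith)
  have hp1' : 3 * q < 2 * p := by
    have : (3 : ℝ) * q < 2 * p := by linarith
    exact_mod_cast this
  have hp2' : 8 * p ≤ 15 * q := by
    have : (8 : ℝ) * p ≤ 15 * q := by linarith
    exact_mod_cast this
  have hqn : 2 * n + 4 < q := by omega
  have hpq : p < 2 * q := by omega
  have hqp : q < p := by omega
  have hne : p ≠ q := hqp.ne'
  have hpn : Nat.Coprime p n := by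
    rw [hp.coprime_iff_not_dvd]
    intro h
    have := Nat.le_of_dvd hn h
    omega
  have hqn' : Nat.Coprime q n := by
    rw [hq.coprime_iff_not_dvd]
    intro h
    have := Nat.le_of_dvd hn h
    omega
  refine ⟨p * q, Nat.mul_pos hp.pos hq.pos, Nat.Coprime.mul_left hpn hqn', ?_⟩
  set N := p * q + n with hN
  -- divisibility by `n`
  have hnd : n ∣ catalan N := by
    refine n_dvd hn ?_
    rw [← hM]
    have h1 : p * q ≡ b * 1 [MOD M] := Nat.ModEq.mul hpM hqM
    rw [mul_one] at h1
    have h2 : p * q + (2 * n + 1) ≡ b + (2 * n + 1) [MOD M] := Nat.ModEq.add_right _ h1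
    rw [hbM] at h2
    have h3 : M ∣ p * q + (2 * n + 1) := by
      rw [Nat.dvd_iff_mod_eq_zero, h2, Nat.mul_mod_right]
    have h4 : N + (n + 1) = p * q + (2 * n + 1) := by rw [hN]; ring
    rw [h4]
    exact h3
  -- divisibility by `p`
  have hpd : p ∣ catalan N := by
    refine prime_dvd hp (i := 2) (by norm_num) ?_ ?_
    · have h1 : N < p ^ 2 := by
        rw [hN]
        nlinarith
      rw [Nat.mod_eq_of_lt h1, hN]
      nlinarith
    · intro h
      rw [hN, add_assoc] at h
      have h1 := (Nat.dvd_add_right (Dvd.intro q rfl)).1 h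
      have := Nat.le_of_dvd (by omega) h1
      omega
  -- divisibility by `q`
  have hqd : q ∣ catalan N := by
    refine prime_dvd hq (i := 2) (by norm_num) ?_ ?_
    · obtain ⟨d, hd⟩ := Nat.exists_eq_add_of_lt hqp
      have hd1 : p = q + (d + 1) := by omega
      have hd2 : d + 1 < q := by omega
      have h1 : N = ((d + 1) * q + n) + q ^ 2 * 1 := by
        rw [hN, hd1]; ring
      have h2 : (d + 1) * q + n < q ^ 2 := by nlinarith
      rw [h1, Nat.add_mul_mod_self_left, Nat.mod_eq_of_lt h2]
      have h3 : q ≤ 2 * (d + 1) := by omega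
      nlinarith
    · intro h
      rw [hN, add_assoc] at h
      have h1 := (Nat.dvd_add_right (Dvd.intro_left p rfl)).1 h
      have := Nat.le_of_dvd (by omega) h1
      omega
  have hcpq : Nat.Coprime p q := (Nat.coprime_primes hp hq).2 hne
  exact Nat.Coprime.mul_dvd_of_dvd_of_dvd (Nat.Coprime.mul_left hpn hqn')
    (hcpq.mul_dvd_of_dvd_of_dvd hpd hqd) hnd

end Pool.Agent.Results.MP_558b4e_nt.EveryInteger
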